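import Pool.Agent.Helper70.OB.Goals

/-! # OB-CHN, part a: tools -/

open MeasureTheory Set Metric Filter
open scoped ENNReal Topology
open Pool.Agent.Results.MP_91ee6f_gt
open Pool.Agent.Helper70.MM (om om_zero om_one om_succ_succ om_rel om_pos om_hasDerivAt om_le
  om_measurable om_continuousOn)

set_option linter.unusedSectionVars false

namespace Pool.Agent.Helper85.OB

open Pool.Agent.Helper70.OB

theorem om_nn (j : ℕ) {s : ℝ} (hs : 0 ≤ s) : 0 ≤ om j s := by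
  rcases hs.eq_or_lt with rfl | h
  · match j with
    | 0 => rw [om_zero]; positivity
    | 1 => rw [om_one]; simp
    | (j + 2) => rw [om_succ_succ]; simp
  · exact (om_pos j h).le

theorem map_single {n : ℕ} {τ : Measure (En n)} (hR : Rot τ) (g : En n ≃ₗᵢ[ℝ] En n) (x : En n) :
    τ {g x} = τ {x} := by
  conv_lhs => rw [← hR g]
  rw [Measure.map_apply g.continuous.measurable (measurableSet_singleton _)]
  congr 1
  ext y
  simp [mem_preimage, mem_singleton_iff]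

theorem single_null {n : ℕ} (hn : 2 ≤ n) {τ : Measure (En n)} [IsFiniteMeasure τ] (hR : Rot τ)
    {x : En n} (hx : x ≠ 0) : τ {x} = 0 := by
  by_contra hne
  have hpos : 0 < τ {x} := pos_iff_ne_zero.mpr hne
  have hfin : Set.Finite {y : En n | τ {x} ≤ τ {y}} :=
    Measure.finite_const_le_meas_of_disjoint_iUnion τ hpos (As := fun y : En n => {y})
      (fun y => measurableSet_singleton y) (fun a b hab => Set.disjoint_singleton.mpr hab)
      (measure_ne_top _ _)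
  have hinf : (sphere (0 : En n) ‖x‖).Infinite := by
    apply IsPreconnected.infinite_of_nontrivial (isPreconnected_sphere ?_ 0 ‖x‖)
    · refine ⟨x, by simp, -x, by simp, fun h => hx ?_⟩
      have h2 : (2 : ℝ) • x = 0 := by
        rw [two_smul]
        nth_rewrite 2 [h]
        exact add_neg_cancel x
      exact (smul_eq_zero.mp h2).resolve_left two_ne_zero
    · rw [← Module.finrank_eq_rank, finrank_euclideanSpace_fin]
      exact_mod_cast hn
  refine hinf (hfin.subset fun y hy => ?_)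
  have hy' : ‖x‖ = ‖y‖ := (mem_sphere_zero_iff_norm.mp hy).symm
  have h1 := map_single hR (Submodule.reflection (ℝ ∙ (x - y))ᗮ) x
  rw [Submodule.reflection_sub hy'] at h1
  exact h1.symm.le

theorem ae_dist_pos {n : ℕ} (hn : 2 ≤ n) {τ : Measure (En n)} [IsFiniteMeasure τ] (hR : Rot τ)
    {e : En n} (he : ‖e‖ = 1) {r : ℝ} (hr : 0 < r) : ∀ᵐ y ∂τ, 0 < dist (r • e) y := by
  have hne : r • e ≠ 0 := by
    rw [← norm_pos_iff, norm_smul, he, mul_one, Real.norm_eq_abs]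
    exact abs_pos.mpr hr.ne'
  have h0 := single_null hn hR hne
  rw [ae_iff]
  refine measure_mono_null (fun y hy => ?_) h0
  rw [mem_ofPred_eq, not_lt] at hy
  exact (dist_le_zero.mp hy).symm

/-- The constant `n vol(ball 0 1)`. -/
noncomputable def kap (n : ℕ) : ℝ≥0∞ := (n : ℝ≥0∞) * volume (ball (0 : En n) 1)

theorem kap_ne_zero {n : ℕ} (hn : 1 ≤ n) : kap n ≠ 0 := by
  unfold kap
  refine mul_ne_zero ?_ (measure_ball_pos _ _ one_pos).ne'
  exact_mod_cast Nat.one_le_iff_ne_zero.mp hn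

theorem kap_ne_top (n : ℕ) : kap n ≠ ∞ := by
  unfold kap
  exact ENNReal.mul_ne_top (ENNReal.natCast_ne_top n) measure_ball_lt_top.ne

/-- `Φ(y) = ∫_{ball 0 t} h(|x-y|) dx`. -/
noncomputable def Phi (n : ℕ) (h : ℝ → ℝ) (t : ℝ) (y : En n) : ℝ≥0∞ :=
  ∫⁻ x in ball (0 : En n) t, ENNReal.ofReal (h (dist x y))

theorem Phi_measurable {n : ℕ} {h : ℝ → ℝ} (hm : Measurable h) (t : ℝ) :
    Measurable (Phi n h t) := by
  unfold Phi
  have : Measurable (fun p : En n × En n => ENNReal.ofReal (h (dist p.2 p.1))) :=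
    (hm.comp (measurable_snd.dist measurable_fst)).ennreal_ofReal
  exact this.lintegral_prod_right'

theorem ofReal_setInt {n : ℕ} {h : ℝ → ℝ} (h0 : ∀ s, 0 ≤ s → 0 ≤ h s) {η : ℝ} (hη : 0 ≤ η)
    (hint : IntegrableOn (fun s : ℝ => s ^ (n - 1) * h s) (Ioi 0)) :
    ∫⁻ u in Ioi η, ENNReal.ofReal (u ^ (n - 1)) * ENNReal.ofReal (h u) =
      ENNReal.ofReal (∫ s in Ioi η, s ^ (n - 1) * h s) := by
  have hi : IntegrableOn (fun s : ℝ => s ^ (n - 1) * h s) (Ioi η) :=
    hint.mono_set (Ioi_subset_Ioi hη)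
  rw [ofReal_integral_eq_lintegral_ofReal hi]
  · apply setLIntegral_congr_fun measurableSet_Ioi
    intro u hu
    have hu' : 0 ≤ u := le_trans hη (le_of_lt hu)
    simp only
    rw [ENNReal.ofReal_mul (pow_nonneg hu' _)]
  · rw [EventuallyLE, ae_restrict_iff' measurableSet_Ioi]
    refine Eventually.of_forall fun u hu => ?_
    have hu' : 0 ≤ u := le_trans hη (le_of_lt hu)
    exact mul_nonneg (pow_nonneg hu' _) (h0 u hu')

section
variable {n : ℕ} (hn : 2 ≤ n) {τ : Measure (En n)} [hτ : IsFiniteMeasure τ] (hR : Rot τ)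
  {e : En n} (he : ‖e‖ = 1) (hRAD : RADI) {h : ℝ → ℝ} (hm : Measurable h)
  (h0 : ∀ s, 0 ≤ s → 0 ≤ h s) (hint : IntegrableOn (fun s : ℝ => s ^ (n - 1) * h s) (Ioi 0))

include hn hτ hR he hRAD hm h0 hint

theorem shell (y : En n) {η : ℝ} (hη : 0 ≤ η) :
    ∫⁻ x in {x : En n | η < dist x y}, ENNReal.ofReal (h (dist x y)) =
      kap n * ENNReal.ofReal (∫ s in Ioi η, s ^ (n - 1) * h s) := by
  rw [(hRAD n (by omega) τ hτ hR e he (fun s => ENNReal.ofReal (h s))
    hm.ennreal_ofReal).2 y η hη, ofReal_setInt h0 hη hint]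
  rfl

theorem ballE {t : ℝ} (ht : 0 < t) :
    kap n * ∫⁻ u in Ioo 0 t, ENNReal.ofReal (u ^ (n - 1)) *
      ∫⁻ y, ENNReal.ofReal (h (dist (u • e) y)) ∂τ = ∫⁻ y, Phi n h t y ∂τ :=
  (hRAD n (by omega) τ hτ hR e he (fun s => ENNReal.ofReal (h s)) hm.ennreal_ofReal).1 t ht

theorem Phi_le (t : ℝ) (y : En n) :
    Phi n h t y ≤ kap n * ENNReal.ofReal (∫ s in Ioi (0 : ℝ), s ^ (n - 1) * h s) := by
  rw [← shell hn hR he hRAD hm h0 hint y le_rfl]
  have : Nonempty (Fin n) := ⟨⟨0, by omega⟩⟩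
  apply lintegral_mono_set'
  have : ∀ᵐ x : En n, x ≠ y := Measure.ae_ne volume y
  filter_upwards [this] with x hx _
  exact dist_pos.mpr hx

theorem Phi_le_out {t : ℝ} {y : En n} (hy : t < ‖y‖) :
    Phi n h t y ≤ kap n * ENNReal.ofReal (∫ s in Ioi ((‖y‖ - t) / 2), s ^ (n - 1) * h s) := by
  have hη : 0 ≤ (‖y‖ - t) / 2 := by linarith
  rw [← shell hn hR he hRAD hm h0 hint y hη]
  apply lintegral_mono_set
  intro x hx
  rw [mem_ball_zero_iff] at hx
  rw [mem_ofPred_eq, dist_eq_norm]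
  have : ‖y‖ - ‖x‖ ≤ ‖x - y‖ := by
    rw [norm_sub_rev]; exact norm_sub_norm_le y x
  linarith

theorem Phi_ge_in {t : ℝ} {y : En n} (hy : ‖y‖ < t) :
    kap n * ENNReal.ofReal (∫ s in Ioi (0 : ℝ), s ^ (n - 1) * h s) ≤ Phi n h t y +
      kap n * ENNReal.ofReal (∫ s in Ioi ((t - ‖y‖) / 2), s ^ (n - 1) * h s) := by
  have hη : 0 ≤ (t - ‖y‖) / 2 := by linarith
  rw [← shell hn hR he hRAD hm h0 hint y hη, ← shell hn hR he hRAD hm h0 hint y le_rfl]
  refine le_trans (lintegral_mono_set (t := ball (0 : En n) t ∪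
    {x : En n | (t - ‖y‖) / 2 < dist x y}) ?_) (lintegral_union_le _ _ _)
  intro x _
  by_cases hx : x ∈ ball (0 : En n) t
  · exact Or.inl hx
  · right
    rw [mem_ball_zero_iff, not_lt] at hx
    rw [mem_ofPred_eq, dist_eq_norm]
    have : ‖x‖ - ‖y‖ ≤ ‖x - y‖ := norm_sub_norm_le x y
    linarith

theorem ballE_le {t : ℝ} (ht : 0 < t) :
    ∫⁻ u in Ioo 0 t, ENNReal.ofReal (u ^ (n - 1)) *
      ∫⁻ y, ENNReal.ofReal (h (dist (u • e) y)) ∂τ ≤
      ENNReal.ofReal (∫ s in Ioi (0 : ℝ), s ^ (n - 1) * h s) * τ univ := by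
  have hk0 := kap_ne_zero (n := n) (by omega)
  have hkt := kap_ne_top n
  have h1 : kap n * ∫⁻ u in Ioo 0 t, ENNReal.ofReal (u ^ (n - 1)) *
      ∫⁻ y, ENNReal.ofReal (h (dist (u • e) y)) ∂τ ≤
      kap n * (ENNReal.ofReal (∫ s in Ioi (0 : ℝ), s ^ (n - 1) * h s) * τ univ) := by
    rw [ballE hn hR he hRAD hm h0 hint ht, ← mul_assoc, ← lintegral_const]
    exact lintegral_mono fun y => Phi_le hn hR he hRAD hm h0 hint t y
  exact (ENNReal.mul_le_mul_iff_right hk0 hkt).mp h1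

end

end Pool.Agent.Helper85.OB
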