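import Pool.Agent.Helper6.OB.Goals

/-!
# Project OB, packet KON: König's lemma for an internal set of words over a bounded alphabet
-/

namespace Pool.Agent.Helper85.OB

open Pool.Agent.Helper6.CS
open Pool.Agent.Helper6.OB

set_option synthInstance.maxSize 1000000000

variable {M : Type} [World M]

/-- `D` has extensions in `T` of every length. -/
def Inf (ρ : M) (T : Wd M → Prop) (D : Wd M) : Prop :=
  ∀ N : M, ∃ z : Wd M, Over ρ z ∧ z.len = N ∧ T (D ++ z)

instance ipInf (ρ : M) (T : Wd M → Prop) [IP M T] : IP M (Inf ρ T) := by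
  change IP M fun D : Wd M => ∀ N : M, ∃ z : Wd M, Over ρ z ∧ z.len = N ∧ T (D ++ z)
  infer_instance

theorem of_self (z : Wd M) : Wd.of z.len z.get = z :=
  Wd.ext' (by rw [Wd.len_of]) fun i hi => by
    rw [Wd.len_of] at hi
    rw [Wd.get_of_lt _ _ hi]

theorem of_succ (g : M → M) [IFn M g] (N : M) :
    Wd.of (N + 1) g = Wd.of N g ++ Wd.sg (g N) := by
  refine Wd.ext' (by simp [Wd.len_of]) fun i hi => ?_
  rw [Wd.len_of] at hi
  rw [Wd.get_of_lt _ _ hi]
  rcases Wd.lt_cases hi with h | ⟨j, hj, rfl⟩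
  · rw [Wd.get_append_left _ _ (by rwa [Wd.len_of]), Wd.get_of_lt _ _ h]
  · have h3 : j = 0 := by
      have h4 : j < 0 + 1 := by rwa [zero_add]
      rw [World.lt_succ] at h4
      exact le_antisymm h4 (World.zero_le' _)
    subst h3
    have h5 : N + 0 = (Wd.of N g).len + 0 := by rw [Wd.len_of]
    conv_rhs => rw [h5]
    rw [Wd.get_append_right, Wd.get_sg_zero, add_zero]

theorem inf_step (ρ : M) (T : Wd M → Prop) [IP M T] (hpre : ∀ D z, T (D ++ z) → T D)
    (D : Wd M) (h : Inf ρ T D) : ∃ e, e < ρ ∧ Inf ρ T (D ++ Wd.sg e) := by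
  by_contra hne
  have h1 : ∀ e, e < ρ →
      ∃ N, ∀ z : Wd M, Over ρ z → z.len = N → ¬ T (D ++ Wd.sg e ++ z) := by
    intro e he
    by_contra h2
    refine hne ⟨e, he, fun N => ?_⟩
    by_contra h3
    exact h2 ⟨N, fun z hz hl hT => h3 ⟨z, hz, hl, hT⟩⟩
  haveI : IP M fun p : M × M =>
      ∀ z : Wd M, Over ρ z → z.len = p.2 → ¬ T (D ++ Wd.sg p.1 ++ z) := by
    infer_instance
  obtain ⟨B, hB⟩ := coll
    (fun e N => ∀ z : Wd M, Over ρ z → z.len = N → ¬ T (D ++ Wd.sg e ++ z)) ρ h1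
  obtain ⟨z, hz, hzl, hT⟩ := h (B + 1)
  have hpos : 0 < B + 1 := lt_of_lt_of_le zero_lt_one (le_add_of_nonneg_left (World.zero_le' B))
  obtain ⟨z', hz', hl'⟩ := Wd.exists_cons (s := z) (by rw [hzl]; exact hpos.ne')
  have he : z.get 0 < ρ := hz 0 (by rw [hzl]; exact hpos)
  generalize z.get 0 = e at hz' he
  have hlB : z'.len = B := by
    rw [hzl] at hl'
    exact (add_right_cancel hl').symm
  obtain ⟨m, hm, hR⟩ := hB e he
  obtain ⟨w, hw⟩ := of_append z'.get (N := m) (N' := z'.len) (by rw [hlB]; exact hm.le)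
  rw [of_self] at hw
  have hov : Over ρ z' := by
    rw [hz'] at hz
    exact (Over.append_iff.1 hz).2
  have hov1 : Over ρ (Wd.of m z'.get) := by
    rw [hw] at hov
    exact (Over.append_iff.1 hov).1
  refine hR (Wd.of m z'.get) hov1 (Wd.len_of _ _) (hpre _ w ?_)
  rw [Wd.append_assoc, Wd.append_assoc, ← hw, ← hz']
  exact hT

theorem t_KON : G_KON := by
  intro hREC M _ ρ T hT hpre hlong
  haveI := hT
  haveI hst : IFn M fun p : M × Wd M =>
      p.2 ++ Wd.sg (lst fun e => e < ρ ∧ Inf ρ T (p.2 ++ Wd.sg e)) := by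
    infer_instance
  obtain ⟨F, hF, hF0, hFs⟩ := hREC M (Wd.nil M) _ hst
  haveI := hF
  have hInf : ∀ j, Inf ρ T (F j) := by
    refine ind inferInstance ?_ ?_
    · rw [hF0]
      intro N
      obtain ⟨D, h1, h2, h3⟩ := hlong N
      exact ⟨D, h2, h1, by rwa [Wd.nil_append]⟩
    · intro n hn
      rw [hFs]
      exact (lst_spec (P := fun e => e < ρ ∧ Inf ρ T (F n ++ Wd.sg e))
        (inf_step ρ T hpre _ hn)).2
  haveI hg : IFn M fun j : M => lst fun e => e < ρ ∧ Inf ρ T (F j ++ Wd.sg e) := by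
    infer_instance
  refine ⟨fun j : M => lst fun e => e < ρ ∧ Inf ρ T (F j ++ Wd.sg e), hg, fun i => ?_, ?_⟩
  · exact (lst_spec (P := fun e => e < ρ ∧ Inf ρ T (F i ++ Wd.sg e))
      (inf_step ρ T hpre _ (hInf i))).1
  · have hofF : ∀ N, Wd.of N (fun j : M => lst fun e => e < ρ ∧ Inf ρ T (F j ++ Wd.sg e))
        = F N := by
      refine ind inferInstance ?_ ?_
      · rw [hF0]
        exact Wd.eq_nil_of_len (Wd.len_of _ _)
      · intro n hn
        rw [of_succ, hn, hFs]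
    intro N
    rw [hofF]
    obtain ⟨z, -, -, hz⟩ := hInf N 0
    exact hpre _ z hz

end Pool.Agent.Helper85.OB
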