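import Pool.Agent.Helper85.OB.CHNc

/-! # OB-CHN, part d: the limit `ε → 0` -/

open MeasureTheory Set Metric Filter
open scoped ENNReal Topology
open Pool.Agent.Results.MP_91ee6f_gt
open Pool.Agent.Helper70.MM (om om_zero om_one om_succ_succ om_rel om_pos om_hasDerivAt om_le
  om_measurable om_continuousOn)

set_option linter.unusedSectionVars false

namespace Pool.Agent.Helper85.OB

open Pool.Agent.Helper70.OB

section
variable {n k : ℕ} (hk : 2 ≤ k) (hnk : n + 1 = 2 * k) {τ : Measure (En n)}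
  [hτ : IsFiniteMeasure τ] (hR : Rot τ) {e : En n} (he : ‖e‖ = 1) (hOMI : OMI) (hMASS : MASS)
  (hREG : REG) (hRAD : RADI)

include hk hnk hR he hOMI hMASS hREG hRAD

theorem gr_tendsto {j : ℕ} (hj : j < k) {r : ℝ} (hr : 0 < r) :
    Tendsto (fun ε : ℝ => gr τ e ε j r) (𝓝[>] 0) (𝓝 (gj τ e j r)) := by
  have hae := ae_dist_pos (n := n) (by omega) hR he hr
  have hi := gj_integrable hk hnk hR he hOMI hMASS hREG hRAD hj hr
  unfold gr gj
  apply tendsto_integral_filter_of_dominated_convergence (fun y => om j (dist (r • e) y))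
  · exact Eventually.of_forall fun ε =>
      ((reg_meas j ε).comp (measurable_const.dist measurable_id)).aestronglyMeasurable
  · refine Eventually.of_forall fun ε => ?_
    filter_upwards [hae] with y hy
    rw [Real.norm_eq_abs, abs_of_nonneg (reg_nn j ε _)]
    exact om_le j hy (s_le_sqrt hy ε)
  · exact hi
  · filter_upwards [hae] with y hy
    exact reg_tendsto j hy

theorem gj_int {j : ℕ} (hj : j < k) {r : ℝ} (hr : 0 < r) :
    IntervalIntegrable (fun u => u ^ (n - 1) * gj τ e j u) volume 0 r := by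
  rw [intervalIntegrable_iff_integrableOn_Ioc_of_le hr.le]
  exact F_int (n := n) (h := om j) (by omega) hR he hRAD (om_measurable j)
    (fun s hs => om_nn j hs) ((hOMI n k hk hnk).1 j hj)
    (fun u hu => gj_integrable hk hnk hR he hOMI hMASS hREG hRAD hj hu) hr

theorem gr_le_gj {j : ℕ} (hj : j < k) {u : ℝ} (hu : 0 < u) {ε : ℝ} (hε : 0 < ε) :
    gr τ e ε j u ≤ gj τ e j u := by
  have hae := ae_dist_pos (n := n) (by omega) hR he hu
  unfold gr gj
  apply integral_mono_ae (reg_integrable e j hε u)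
    (gj_integrable hk hnk hR he hOMI hMASS hREG hRAD hj hu)
  filter_upwards [hae] with y hy
  exact om_le j hy (s_le_sqrt hy ε)

theorem I1_tendsto {j : ℕ} (hj : j < k) {t : ℝ} (ht : 0 < t) :
    Tendsto (fun ε : ℝ => ∫ u in (0 : ℝ)..t, u ^ (n - 1) *
      ∫ y, om j (Real.sqrt (dist (u • e) y ^ 2 + ε ^ 2)) ∂τ) (𝓝[>] 0)
      (𝓝 (∫ u in (0 : ℝ)..t, u ^ (n - 1) * gj τ e j u)) := by
  apply intervalIntegral.tendsto_integral_filter_of_dominated_convergence
    (fun u => u ^ (n - 1) * gj τ e j u)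
  · filter_upwards [self_mem_nhdsWithin] with ε hε
    have h0 := gr_cont hk hnk hR he hREG hε j
    exact (by fun_prop : Continuous fun u : ℝ => u ^ (n - 1) * gr τ e ε j u).aestronglyMeasurable
  · filter_upwards [self_mem_nhdsWithin] with ε hε
    refine Eventually.of_forall fun u hu => ?_
    rw [uIoc_of_le ht.le] at hu
    have hu0 : 0 < u := hu.1
    have hg : 0 ≤ gr τ e ε j u := integral_nonneg fun y => reg_nn j ε _
    change ‖u ^ (n - 1) * gr τ e ε j u‖ ≤ _
    rw [Real.norm_eq_abs, abs_of_nonneg (mul_nonneg (pow_nonneg hu0.le _) hg)]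
    exact mul_le_mul_of_nonneg_left
      (gr_le_gj hk hnk hR he hOMI hMASS hREG hRAD hj hu0 hε) (pow_nonneg hu0.le _)
  · exact gj_int hk hnk hR he hOMI hMASS hREG hRAD hj ht
  · refine Eventually.of_forall fun u hu => ?_
    rw [uIoc_of_le ht.le] at hu
    exact (gr_tendsto hk hnk hR he hOMI hMASS hREG hRAD hj hu.1).const_mul _

theorem I3_tendsto {j : ℕ} (hj : j < k) {t : ℝ} (ht : 0 < t) (hs : τ (sphere 0 t) = 0) :
    Tendsto (fun ε : ℝ => ∫ u in (0 : ℝ)..t, u ^ (n - 1) *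
      ∫ y, ε ^ 2 * om (j + 2) (Real.sqrt (dist (u • e) y ^ 2 + ε ^ 2)) ∂τ) (𝓝[>] 0)
      (𝓝 (if j + 1 < k then 0 else AA n j * τ.real (ball 0 t))) := by
  obtain ⟨hM, hMt, hTt⟩ := hMASS n k hk hnk j hj
  have hmeas : ∀ ε : ℝ, Measurable (fun s : ℝ => ε ^ 2 * om (j + 2) (Real.sqrt (s ^ 2 + ε ^ 2))) :=
    fun ε => (reg_meas (j + 2) ε).const_mul _
  have hnn : ∀ ε s : ℝ, 0 ≤ s → 0 ≤ ε ^ 2 * om (j + 2) (Real.sqrt (s ^ 2 + ε ^ 2)) :=
    fun ε s _ => mul_nonneg (sq_nonneg ε) (reg_nn (j + 2) ε s)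
  have hH : ∀ ε : ℝ, 0 < ε → ∀ u : ℝ, 0 < u → Integrable (fun y =>
      (fun s : ℝ => ε ^ 2 * om (j + 2) (Real.sqrt (s ^ 2 + ε ^ 2))) (dist (u • e) y)) τ :=
    fun ε hε u _ => (reg_integrable e (j + 2) hε u).const_mul _
  by_cases hj1 : j + 1 < k
  · rw [if_pos hj1] at hMt ⊢
    have hup : Tendsto (fun ε : ℝ => (∫ s in Ioi (0 : ℝ),
        s ^ (n - 1) * (ε ^ 2 * om (j + 2) (Real.sqrt (s ^ 2 + ε ^ 2)))) * τ.real univ)
        (𝓝[>] 0) (𝓝 0) := by
      have := hMt.mul_const (τ.real univ)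
      rwa [zero_mul] at this
    apply tendsto_of_tendsto_of_tendsto_of_le_of_le' tendsto_const_nhds hup
    · filter_upwards [self_mem_nhdsWithin] with ε hε
      exact (F_bound (n := n) (by omega) hR he hRAD (hmeas ε) (hnn ε) (hM ε hε).1
        (hH ε hε) ht).1
    · filter_upwards [self_mem_nhdsWithin] with ε hε
      exact (F_bound (n := n) (by omega) hR he hRAD (hmeas ε) (hnn ε) (hM ε hε).1
        (hH ε hε) ht).2
  · rw [if_neg hj1] at hMt ⊢
    have hA : ∀ ε : ℝ, 0 < ε → ∀ y : En n,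
        psi n (fun s : ℝ => ε ^ 2 * om (j + 2) (Real.sqrt (s ^ 2 + ε ^ 2))) t y ≤ AA n j :=
      fun ε hε y => (psi_le (n := n) (by omega) hR he hRAD (hmeas ε) (hnn ε) (hM ε hε).1
        t y).trans (hM ε hε).2
    have heq : ∫ y, (ball (0 : En n) t).indicator (fun _ => AA n j) y ∂τ =
        AA n j * τ.real (ball 0 t) := by
      rw [integral_indicator measurableSet_ball, setIntegral_const, smul_eq_mul, mul_comm]
    rw [← heq]
    have hcongr : ∀ᶠ ε : ℝ in 𝓝[>] 0, (∫ y, psi n (fun s : ℝ =>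
        ε ^ 2 * om (j + 2) (Real.sqrt (s ^ 2 + ε ^ 2))) t y ∂τ) = ∫ u in (0 : ℝ)..t,
          u ^ (n - 1) * ∫ y, ε ^ 2 * om (j + 2) (Real.sqrt (dist (u • e) y ^ 2 + ε ^ 2)) ∂τ := by
      filter_upwards [self_mem_nhdsWithin] with ε hε
      exact (F_eq (n := n) (by omega) hR he hRAD (hmeas ε) (hnn ε) (hM ε hε).1
        (hH ε hε) ht).symm
    refine Tendsto.congr' hcongr ?_
    apply tendsto_integral_filter_of_dominated_convergence (fun _ => AA n j)
    · exact Eventually.of_forall fun ε => (psi_measurable (hmeas ε) t).aestronglyMeasurable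
    · filter_upwards [self_mem_nhdsWithin] with ε hε
      refine Eventually.of_forall fun y => ?_
      rw [Real.norm_eq_abs, abs_of_nonneg (psi_nonneg n _ t y)]
      exact hA ε hε y
    · exact integrable_const _
    · have hae : ∀ᵐ y ∂τ, ‖y‖ ≠ t := by
        rw [ae_iff]
        refine measure_mono_null (fun y hy => ?_) hs
        rw [mem_ofPred_eq, not_not] at hy
        exact mem_sphere_zero_iff_norm.mpr hy
      filter_upwards [hae] with y hy
      rcases lt_or_gt_of_ne hy with h | h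
      · rw [indicator_of_mem (mem_ball_zero_iff.mpr h)]
        have hlow : Tendsto (fun ε : ℝ => (∫ s in Ioi (0 : ℝ),
            s ^ (n - 1) * (ε ^ 2 * om (j + 2) (Real.sqrt (s ^ 2 + ε ^ 2)))) -
            ∫ s in Ioi ((t - ‖y‖) / 2),
            s ^ (n - 1) * (ε ^ 2 * om (j + 2) (Real.sqrt (s ^ 2 + ε ^ 2)))) (𝓝[>] 0)
            (𝓝 (AA n j)) := by
          have := hMt.sub (hTt ((t - ‖y‖) / 2) (by linarith))
          rwa [sub_zero] at this
        apply tendsto_of_tendsto_of_tendsto_of_le_of_le' hlow tendsto_const_nhds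
        · filter_upwards [self_mem_nhdsWithin] with ε hε
          exact psi_in (n := n) (by omega) hR he hRAD (hmeas ε) (hnn ε) (hM ε hε).1 h
        · filter_upwards [self_mem_nhdsWithin] with ε hε
          exact hA ε hε y
      · rw [indicator_of_notMem (fun hc => absurd (mem_ball_zero_iff.mp hc) (not_lt.mpr h.le))]
        have hup := hTt ((‖y‖ - t) / 2) (by linarith)
        apply tendsto_of_tendsto_of_tendsto_of_le_of_le' tendsto_const_nhds hup
        · exact Eventually.of_forall fun ε => psi_nonneg n _ t y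
        · filter_upwards [self_mem_nhdsWithin] with ε hε
          exact psi_out (n := n) (by omega) hR he hRAD (hmeas ε) (hnn ε) (hM ε hε).1 h

theorem PE_tendsto {j : ℕ} (hj : j < k) {t : ℝ} (ht : 0 < t) (hs : τ (sphere 0 t) = 0) :
    Tendsto (fun ε : ℝ => PE τ e j ε t) (𝓝[>] 0) (𝓝 (pj k τ e j t)) := by
  obtain ⟨_, ha2⟩ := coef hk hnk hj
  have h1 := I1_tendsto hk hnk hR he hOMI hMASS hREG hRAD hj ht (τ := τ) (e := e)
  have h3 := I3_tendsto hk hnk hR he hOMI hMASS hREG hRAD hj ht hs (τ := τ) (e := e)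
  have hP : pj k τ e j t = (∫ u in (0 : ℝ)..t, u ^ (n - 1) * gj τ e j u) -
      ((n : ℝ) - 1 - 2 * j) * (∫ u in (0 : ℝ)..t, u ^ (n - 1) * gj τ e (j + 1) u) -
      (if j + 1 < k then 0 else AA n j * τ.real (ball 0 t)) := by
    unfold pj
    congr 1
    by_cases hj1 : j + 1 < k
    · rw [← intervalIntegral.integral_const_mul, ← intervalIntegral.integral_sub
        (gj_int hk hnk hR he hOMI hMASS hREG hRAD hj ht)
        ((gj_int hk hnk hR he hOMI hMASS hREG hRAD hj1 ht).const_mul _)]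
      apply intervalIntegral.integral_congr
      intro u _
      simp only
      ring
    · rw [ha2 hj1]
      simp
  have h2 : Tendsto (fun ε : ℝ => ((n : ℝ) - 1 - 2 * j) * (∫ u in (0 : ℝ)..t, u ^ (n - 1) *
      ∫ y, om (j + 1) (Real.sqrt (dist (u • e) y ^ 2 + ε ^ 2)) ∂τ)) (𝓝[>] 0)
      (𝓝 (((n : ℝ) - 1 - 2 * j) * (∫ u in (0 : ℝ)..t, u ^ (n - 1) * gj τ e (j + 1) u))) := by
    by_cases hj1 : j + 1 < k
    · exact (I1_tendsto hk hnk hR he hOMI hMASS hREG hRAD hj1 ht).const_mul _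
    · rw [ha2 hj1]
      simp only [zero_mul]
      exact tendsto_const_nhds
  rw [hP]
  refine Tendsto.congr' ?_ ((h1.sub h2).sub h3)
  filter_upwards [self_mem_nhdsWithin] with ε hε
  exact (PE_split hk hnk hR he hREG hε j t).symm

theorem chn_main {j : ℕ} (hj : j < k) {r₁ r₂ : ℝ} (h1 : 0 < r₁) (h12 : r₁ ≤ r₂) :
    IntervalIntegrable (fun t => pj k τ e j t / t ^ (n - 1)) volume r₁ r₂ ∧
      gj τ e j r₂ - gj τ e j r₁ = ∫ t in r₁..r₂, pj k τ e j t / t ^ (n - 1) := by
  have h2 : 0 < r₂ := lt_of_lt_of_le h1 h12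
  obtain ⟨C, hC0, hC⟩ := PE_bound hk hnk hR he hOMI hMASS hREG hRAD hj (τ := τ) (e := e)
  set εs : ℕ → ℝ := fun m => 1 / ((m : ℝ) + 1) with hεs
  have hεpos : ∀ m, 0 < εs m := fun m => by simp only [hεs]; positivity
  have hε0 : Tendsto εs atTop (𝓝[>] 0) := by
    apply tendsto_nhdsWithin_iff.mpr
    exact ⟨tendsto_one_div_add_atTop_nhds_zero_nat, Eventually.of_forall fun m => hεpos m⟩
  -- the bad radii
  have hcount : Set.Countable {t : ℝ | 0 < τ {x : En n | ‖x‖ = t}} :=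
    Measure.countable_meas_level_set_pos (μ := τ) (g := fun x : En n => ‖x‖) measurable_norm
  have hgood : ∀ᵐ t : ℝ, τ (sphere (0 : En n) t) = 0 := by
    have h0 : (volume : Measure ℝ) {t : ℝ | 0 < τ {x : En n | ‖x‖ = t}} = 0 :=
      hcount.measure_zero volume
    rw [ae_iff]
    refine measure_mono_null (fun t ht => ?_) h0
    rw [mem_ofPred_eq] at ht ⊢
    have : {x : En n | ‖x‖ = t} = sphere (0 : En n) t := by
      ext x; simp
    rw [this]
    exact pos_iff_ne_zero.mpr ht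
  have hlim : ∀ᵐ t : ℝ, t ∈ uIoc r₁ r₂ → Tendsto (fun m : ℕ => PE τ e j (εs m) t / t ^ (n - 1)) atTop
      (𝓝 (pj k τ e j t / t ^ (n - 1))) := by
    filter_upwards [hgood] with t ht hmem
    rw [uIoc_of_le h12] at hmem
    have ht0 : 0 < t := lt_trans h1 hmem.1
    exact ((PE_tendsto hk hnk hR he hOMI hMASS hREG hRAD hj ht0 ht).comp hε0).div_const _
  have hbd : ∀ m : ℕ, ∀ t ∈ uIoc r₁ r₂, ‖PE τ e j (εs m) t / t ^ (n - 1)‖ ≤ C / r₁ ^ (n - 1) := by
    intro m t ht
    rw [uIoc_of_le h12] at ht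
    have ht0 : 0 < t := lt_trans h1 ht.1
    rw [norm_div, Real.norm_eq_abs, Real.norm_eq_abs, abs_of_pos (pow_pos ht0 _)]
    exact div_le_div₀ hC0 (hC (εs m) (hεpos m) t ht0) (pow_pos h1 _)
      (pow_le_pow_left₀ h1.le ht.1.le _)
  have hmeasm : ∀ m : ℕ, AEStronglyMeasurable (fun t => PE τ e j (εs m) t / t ^ (n - 1))
      (volume.restrict (uIoc r₁ r₂)) := by
    intro m
    have hc := PE_cont hk hnk hR he hREG (hεpos m) j
    exact (hc.measurable.div (by fun_prop : Measurable fun t : ℝ => t ^ (n - 1))).aestronglyMeasurable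
  have hlim' : ∀ᵐ t : ℝ ∂(volume.restrict (uIoc r₁ r₂)),
      Tendsto (fun m : ℕ => PE τ e j (εs m) t / t ^ (n - 1)) atTop
      (𝓝 (pj k τ e j t / t ^ (n - 1))) := (ae_restrict_iff' measurableSet_uIoc).mpr hlim
  have hpm : AEStronglyMeasurable (fun t => pj k τ e j t / t ^ (n - 1))
      (volume.restrict (uIoc r₁ r₂)) := aestronglyMeasurable_of_tendsto_ae atTop hmeasm hlim'
  have hpb : ∀ᵐ t : ℝ ∂(volume.restrict (uIoc r₁ r₂)),
      ‖pj k τ e j t / t ^ (n - 1)‖ ≤ C / r₁ ^ (n - 1) := by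
    have hmem : ∀ᵐ t : ℝ ∂(volume.restrict (uIoc r₁ r₂)), t ∈ uIoc r₁ r₂ :=
      ae_restrict_mem measurableSet_uIoc
    filter_upwards [hlim', hmem] with t ht hm
    exact le_of_tendsto ht.norm (Eventually.of_forall fun m => hbd m t hm)
  have hii : IntervalIntegrable (fun t => pj k τ e j t / t ^ (n - 1)) volume r₁ r₂ := by
    have : IsFiniteMeasure ((volume : Measure ℝ).restrict (uIoc r₁ r₂)) := by
      rw [uIoc_of_le h12]
      infer_instance
    rw [intervalIntegrable_iff]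
    exact ⟨hpm, HasFiniteIntegral.of_bounded hpb⟩
  refine ⟨hii, ?_⟩
  have hT1 : Tendsto (fun m : ℕ => gr τ e (εs m) j r₂ - gr τ e (εs m) j r₁) atTop
      (𝓝 (gj τ e j r₂ - gj τ e j r₁)) :=
    ((gr_tendsto hk hnk hR he hOMI hMASS hREG hRAD hj h2).comp hε0).sub
      ((gr_tendsto hk hnk hR he hOMI hMASS hREG hRAD hj h1).comp hε0)
  have hT2 : Tendsto (fun m : ℕ => ∫ t in r₁..r₂, PE τ e j (εs m) t / t ^ (n - 1)) atTop
      (𝓝 (∫ t in r₁..r₂, pj k τ e j t / t ^ (n - 1))) := by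
    apply intervalIntegral.tendsto_integral_filter_of_dominated_convergence
      (fun _ => C / r₁ ^ (n - 1))
    · exact Eventually.of_forall hmeasm
    · exact Eventually.of_forall fun m => Eventually.of_forall fun t ht => hbd m t ht
    · exact intervalIntegrable_const
    · exact hlim
  refine tendsto_nhds_unique hT1 (Tendsto.congr (fun m => ?_) hT2)
  exact (gr_ftc hk hnk hR he hREG (hεpos m) j h1 h2).symm

end

/-- OB-CHN. -/
theorem chn (hOMI : OMI) (hMASS : MASS) (hREG : REG) (hRAD : RADI) : CHN := by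
  intro n k hk hnk τ hτ hR e he j hj
  refine ⟨fun r hr => gj_integrable hk hnk hR he hOMI hMASS hREG hRAD hj hr,
    fun r hr => gj_int hk hnk hR he hOMI hMASS hREG hRAD hj hr,
    fun r₁ r₂ h1 h12 => chn_main hk hnk hR he hOMI hMASS hREG hRAD hj h1 h12⟩

end Pool.Agent.Helper85.OB
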