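import Pool.Agent.Helper73.OB.GoalsA

/-!
# Packet PRB of project OB (MP_fc0446_an)
-/

set_option autoImplicit false

open MeasureTheory
open scoped ENNReal

namespace Pool.Agent.Helper85.OB

open Pool.Agent.Helper73.OB

theorem ip_fair : IsProbabilityMeasure fair := by
  constructor
  rw [fair]
  simp only [Measure.smul_apply, Measure.add_apply, measure_univ, smul_eq_mul]
  rw [one_add_one_eq_two]
  exact ENNReal.inv_mul_cancel (by norm_num) (by norm_num)

instance : IsProbabilityMeasure fair := ip_fair

theorem ofReal_add_compl (e : unitInterval) :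
    ENNReal.ofReal (e : ℝ) + ENNReal.ofReal (1 - (e : ℝ)) = 1 := by
  rw [← ENNReal.ofReal_add e.2.1 (by linarith [e.2.2])]
  simp

instance ip_ber (e : unitInterval) : IsProbabilityMeasure (ber e) := by
  constructor
  rw [ber]
  simp only [Measure.add_apply, Measure.smul_apply, measure_univ, smul_eq_mul, mul_one]
  exact ofReal_add_compl e

theorem fair_single (c : Bit) : fair {c} = 2⁻¹ := by
  rw [fair]
  simp only [Measure.smul_apply, Measure.add_apply, smul_eq_mul]
  have : c = 0 ∨ c = 1 := by
    revert c
    decide
  rcases this with rfl | rfl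
  · rw [Measure.dirac_apply' _ (measurableSet_singleton _), Measure.dirac_apply' _ (measurableSet_singleton _)]
    simp
  · rw [Measure.dirac_apply' _ (measurableSet_singleton _), Measure.dirac_apply' _ (measurableSet_singleton _)]
    simp

theorem ber_true (e : unitInterval) : ber e {true} = ENNReal.ofReal e := by
  rw [ber]
  simp only [Measure.add_apply, Measure.smul_apply, smul_eq_mul]
  rw [Measure.dirac_apply' _ (measurableSet_singleton _), Measure.dirac_apply' _ (measurableSet_singleton _)]
  simp

theorem ber_false (e : unitInterval) : ber e {false} = ENNReal.ofReal (1 - e) := by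
  rw [ber]
  simp only [Measure.add_apply, Measure.smul_apply, smul_eq_mul]
  rw [Measure.dirac_apply' _ (measurableSet_singleton _), Measure.dirac_apply' _ (measurableSet_singleton _)]
  simp

/-- The law of the four bits. -/
noncomputable abbrev bits : Measure (Bit → Bit → Bit) := Measure.pi fun _ : Bit => fair2

theorem bits_eval (d z c : Bit) : bits {b | b d z = c} = 2⁻¹ := by
  have h1 := (measurePreserving_eval (fun _ : Bit => fair2) d)
  have h2 := (measurePreserving_eval (fun _ : Bit => fair) z)
  have h3 := (h2.comp h1).measure_preimage (measurableSet_singleton c).nullMeasurableSet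
  rw [fair_single] at h3
  rw [← h3]
  rfl

/-- The base measure of `kap`. -/
noncomputable abbrev base (e : unitInterval) :
    Measure (Bool × (Bit → Bit → Bit) × unitInterval × (Bit → unitInterval)) :=
  (ber e).prod (bits.prod (uni.prod uni2))

/-- The map of `kap`. -/
noncomputable def kmap (s : Bool × (Bit → Bit → Bit) × unitInterval × (Bit → unitInterval)) : Sk :=
  (s.1, (if s.1 = true then s.2.1 else fun _ z => s.2.1 0 0 + z), s.2.2.1, s.2.2.2)

theorem kmap_meas : Measurable kmap := by
  unfold kmap
  refine measurable_fst.prodMk (Measurable.prodMk ?_ (by fun_prop))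
  refine Measurable.ite ?_ (by fun_prop) ?_
  · exact measurable_fst (measurableSet_singleton true)
  · have h : Measurable (fun b : Bit → Bit → Bit => (fun _ z => b 0 0 + z : Bit → Bit → Bit)) :=
      measurable_of_finite _
    exact h.comp (measurable_fst.comp measurable_snd)

theorem kap_eq (e : unitInterval) : kap e = (base e).map kmap := rfl

/-- The map of `lawL`. -/
noncomputable def lmap (s : Bool × (Bit → Bit) × unitInterval × (Bit → unitInterval)) : Lb :=
  (s.1, (if s.1 = true then s.2.1 else 0), s.2.2.1, s.2.2.2)

theorem lmap_meas : Measurable lmap := by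
  unfold lmap
  refine measurable_fst.prodMk (Measurable.prodMk ?_ (by fun_prop))
  refine Measurable.ite ?_ (by fun_prop) measurable_const
  exact measurable_fst (measurableSet_singleton true)

theorem lawL_eq (e : unitInterval) :
    lawL e = ((ber e).prod (fair2.prod (uni.prod uni2))).map lmap := rfl

instance ip_kap (e : unitInterval) : IsProbabilityMeasure (kap e) := by
  rw [kap_eq]
  exact Measure.isProbabilityMeasure_map kmap_meas.aemeasurable

instance ip_lawL (e : unitInterval) : IsProbabilityMeasure (lawL e) := by
  rw [lawL_eq]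
  exact Measure.isProbabilityMeasure_map lmap_meas.aemeasurable

instance ip_lawL3 (e : unitInterval) : IsProbabilityMeasure (lawL3 e) := by
  unfold lawL3
  infer_instance

theorem base_sets (e : unitInterval) (A : Set Bool) (B : Set (Bit → Bit → Bit)) :
    base e (A ×ˢ (B ×ˢ Set.univ)) = ber e A * bits B := by
  rw [Measure.prod_prod, Measure.prod_prod, measure_univ, mul_one]

theorem kap_atom (e : unitInterval) (s : Sk) : kap e {s} = 0 := by
  have h : kap e {s' : Sk | s'.2.2.1 = s.2.2.1} = 0 := by
    rw [kap_eq, Measure.map_apply kmap_meas]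
    · have : kmap ⁻¹' {s' : Sk | s'.2.2.1 = s.2.2.1} =
          Set.univ ×ˢ (Set.univ ×ˢ ({s.2.2.1} ×ˢ Set.univ)) := by
        ext x
        simp [kmap]
      rw [this, Measure.prod_prod, Measure.prod_prod, Measure.prod_prod]
      simp
    · exact (measurable_fst.comp (measurable_snd.comp measurable_snd))
        (measurableSet_singleton s.2.2.1)
  exact measure_mono_null (by intro x hx; rw [Set.mem_singleton_iff] at hx; rw [hx]; rfl) h

theorem lawL_atom (e : unitInterval) (s : Lb) : lawL e {s} = 0 := by
  have h : lawL e {s' : Lb | s'.2.2.1 = s.2.2.1} = 0 := by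
    rw [lawL_eq, Measure.map_apply lmap_meas]
    · have : lmap ⁻¹' {s' : Lb | s'.2.2.1 = s.2.2.1} =
          Set.univ ×ˢ (Set.univ ×ˢ ({s.2.2.1} ×ˢ Set.univ)) := by
        ext x
        simp [lmap]
      rw [this, Measure.prod_prod, Measure.prod_prod, Measure.prod_prod]
      simp
    · exact (measurable_fst.comp (measurable_snd.comp measurable_snd))
        (measurableSet_singleton s.2.2.1)
  exact measure_mono_null (by intro x hx; rw [Set.mem_singleton_iff] at hx; rw [hx]; rfl) h

theorem kap_true (e : unitInterval) (d z c : Bit) :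
    kap e {s | s.1 = true ∧ s.2.1 d z = c} = ENNReal.ofReal e / 2 := by
  rw [kap_eq, Measure.map_apply kmap_meas]
  · have : kmap ⁻¹' {s : Sk | s.1 = true ∧ s.2.1 d z = c} =
        {true} ×ˢ ({b | b d z = c} ×ˢ Set.univ) := by
      ext x
      rcases x with ⟨x1, x2, x3⟩
      cases x1 <;> simp [kmap]
    rw [this, base_sets, ber_true, bits_eval]
    rfl
  · refine MeasurableSet.inter (measurable_fst (measurableSet_singleton true)) ?_
    have h : Measurable (fun s : Sk => s.2.1 d z) := by fun_prop
    exact h (measurableSet_singleton c)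

theorem kap_false (e : unitInterval) (d z c : Bit) :
    kap e {s | s.1 = false ∧ s.2.1 d z = c} = ENNReal.ofReal (1 - e) / 2 := by
  rw [kap_eq, Measure.map_apply kmap_meas]
  · have : kmap ⁻¹' {s : Sk | s.1 = false ∧ s.2.1 d z = c} =
        {false} ×ˢ ({b | b 0 0 = c - z} ×ˢ Set.univ) := by
      ext x
      rcases x with ⟨x1, x2, x3⟩
      cases x1 <;> simp [kmap, eq_sub_iff_add_eq]
    rw [this, base_sets, ber_false, bits_eval]
    rfl
  · refine MeasurableSet.inter (measurable_fst (measurableSet_singleton false)) ?_
    have h : Measurable (fun s : Sk => s.2.1 d z) := by fun_prop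
    exact h (measurableSet_singleton c)

theorem kap_bit (e : unitInterval) (d z c : Bit) : kap e {s | s.2.1 d z = c} = 2⁻¹ := by
  have h : {s : Sk | s.2.1 d z = c} =
      {s : Sk | s.1 = true ∧ s.2.1 d z = c} ∪ {s : Sk | s.1 = false ∧ s.2.1 d z = c} := by
    ext s
    rcases s with ⟨s1, s2⟩
    cases s1 <;> simp
  have hm : MeasurableSet {s : Sk | s.1 = false ∧ s.2.1 d z = c} := by
    refine MeasurableSet.inter (measurable_fst (measurableSet_singleton false)) ?_
    have h : Measurable (fun s : Sk => s.2.1 d z) := by fun_prop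
    exact h (measurableSet_singleton c)
  rw [h, measure_union _ hm, kap_true, kap_false, ← ENNReal.add_div, ofReal_add_compl, one_div]
  rw [Set.disjoint_left]
  rintro s ⟨h1, -⟩ ⟨h2, -⟩
  rw [h1] at h2
  exact absurd h2 (by decide)

theorem prb : Pool.Agent.Helper73.OB.S_PRB := by
  refine ⟨ip_fair, fun e => ⟨ip_ber e, ip_kap e, ip_lawL e, ip_lawL3 e, ⟨kap_atom e⟩, ⟨lawL_atom e⟩,
    ?_, ?_, ?_, kap_bit e, kap_true e, ?_⟩⟩
  · have hm : MeasurableSet {s : Sk | s.1 = true} := measurable_fst (measurableSet_singleton true)
    rw [kap_eq, Measure.map_apply kmap_meas hm]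
    have h2 : kmap ⁻¹' {s : Sk | s.1 = true} = {true} ×ˢ (Set.univ ×ˢ Set.univ) := by
      ext x
      simp [kmap]
    rw [h2, base_sets, ber_true, measure_univ, mul_one]
  · have h2 : {s : Lb3 | s.1 = true} = {true} ×ˢ Set.univ := by
      ext x
      simp
    rw [h2, lawL3, Measure.prod_prod, ber_true, measure_univ, mul_one]
  · intro t
    have h2 : {s : Lb3 | s.2.2.1 = t} =
        Set.univ ×ˢ (Set.univ ×ˢ ({t} ×ˢ (Set.univ ×ˢ Set.univ))) := by
      ext x
      simp
    rw [h2, lawL3, Measure.prod_prod, Measure.prod_prod, Measure.prod_prod, measure_singleton]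
    simp
  · rw [kap_eq]
    have hm : MeasurableSet {s : Sk | s.1 = false → ∀ d z, s.2.1 d z = s.2.1 0 0 + z} := by
      have h1 : Measurable (fun s : Sk => (s.1, s.2.1)) := by fun_prop
      have h2 : MeasurableSet {q : Bool × (Bit → Bit → Bit) |
          q.1 = false → ∀ d z, q.2 d z = q.2 0 0 + z} := Set.Finite.measurableSet (Set.toFinite _)
      exact h1 h2
    rw [ae_map_iff kmap_meas.aemeasurable hm]
    refine Filter.Eventually.of_forall fun s hs d z => ?_
    rcases s with ⟨s1, s2, s3⟩
    cases s1
    · simp [kmap]
    · simp [kmap] at hs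

end Pool.Agent.Helper85.OB
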