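import Pool.Agent.Helper85.OB.CHNa

/-! # OB-CHN, part b: real valued form of the radial integration -/

open MeasureTheory Set Metric Filter
open scoped ENNReal Topology
open Pool.Agent.Results.MP_91ee6f_gt
open Pool.Agent.Helper70.MM (om om_zero om_one om_succ_succ om_rel om_pos om_hasDerivAt om_le
  om_measurable om_continuousOn)

set_option linter.unusedSectionVars false

namespace Pool.Agent.Helper85.OB

open Pool.Agent.Helper70.OB

/-- `ψ(y) = Φ(y) / (n vol(ball))`. -/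
noncomputable def psi (n : ℕ) (h : ℝ → ℝ) (t : ℝ) (y : En n) : ℝ :=
  (Phi n h t y).toReal / (kap n).toReal

theorem psi_nonneg (n : ℕ) (h : ℝ → ℝ) (t : ℝ) (y : En n) : 0 ≤ psi n h t y :=
  div_nonneg ENNReal.toReal_nonneg ENNReal.toReal_nonneg

theorem psi_measurable {n : ℕ} {h : ℝ → ℝ} (hm : Measurable h) (t : ℝ) :
    Measurable (psi n h t) := by
  unfold psi
  exact ((Phi_measurable hm t).ennreal_toReal).div_const _

theorem meas2 {n : ℕ} {h : ℝ → ℝ} (hm : Measurable h) (e : En n) :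
    Measurable (fun p : ℝ × En n => h (dist (p.1 • e) p.2)) :=
  hm.comp ((measurable_fst.smul_const e).dist measurable_snd)

section
variable {n : ℕ} (hn : 2 ≤ n) {τ : Measure (En n)} [hτ : IsFiniteMeasure τ] (hR : Rot τ)
  {e : En n} (he : ‖e‖ = 1) (hRAD : RADI) {h : ℝ → ℝ} (hm : Measurable h)
  (h0 : ∀ s, 0 ≤ s → 0 ≤ h s) (hint : IntegrableOn (fun s : ℝ => s ^ (n - 1) * h s) (Ioi 0))

include h0 in
theorem tail_nonneg {η : ℝ} (hη : 0 ≤ η) : 0 ≤ ∫ s in Ioi η, s ^ (n - 1) * h s :=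
  setIntegral_nonneg measurableSet_Ioi fun s hs =>
    mul_nonneg (pow_nonneg (le_trans hη (le_of_lt hs)) _) (h0 s (le_trans hη (le_of_lt hs)))

theorem kapr_pos (hn : 2 ≤ n) : 0 < (kap n).toReal :=
  ENNReal.toReal_pos (kap_ne_zero (by omega)) (kap_ne_top n)

include hn hτ hR he hRAD hm h0 hint

theorem Phi_ne_top (t : ℝ) (y : En n) : Phi n h t y ≠ ∞ :=
  ne_top_of_le_ne_top (ENNReal.mul_ne_top (kap_ne_top n) ENNReal.ofReal_ne_top)
    (Phi_le hn hR he hRAD hm h0 hint t y)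

theorem psi_le (t : ℝ) (y : En n) :
    psi n h t y ≤ ∫ s in Ioi (0 : ℝ), s ^ (n - 1) * h s := by
  unfold psi
  rw [div_le_iff₀ (kapr_pos hn), mul_comm]
  have h1 := ENNReal.toReal_mono (ENNReal.mul_ne_top (kap_ne_top n) ENNReal.ofReal_ne_top)
    (Phi_le hn hR he hRAD hm h0 hint t y)
  rwa [ENNReal.toReal_mul, ENNReal.toReal_ofReal (tail_nonneg h0 le_rfl)] at h1

theorem psi_out {t : ℝ} {y : En n} (hy : t < ‖y‖) :
    psi n h t y ≤ ∫ s in Ioi ((‖y‖ - t) / 2), s ^ (n - 1) * h s := by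
  unfold psi
  rw [div_le_iff₀ (kapr_pos hn), mul_comm]
  have h1 := ENNReal.toReal_mono (ENNReal.mul_ne_top (kap_ne_top n) ENNReal.ofReal_ne_top)
    (Phi_le_out hn hR he hRAD hm h0 hint hy)
  rwa [ENNReal.toReal_mul, ENNReal.toReal_ofReal (tail_nonneg h0 (by linarith))] at h1

theorem psi_in {t : ℝ} {y : En n} (hy : ‖y‖ < t) :
    (∫ s in Ioi (0 : ℝ), s ^ (n - 1) * h s) - (∫ s in Ioi ((t - ‖y‖) / 2), s ^ (n - 1) * h s) ≤
      psi n h t y := by
  unfold psi
  rw [le_div_iff₀ (kapr_pos hn)]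
  have hne : Phi n h t y + kap n *
      ENNReal.ofReal (∫ s in Ioi ((t - ‖y‖) / 2), s ^ (n - 1) * h s) ≠ ∞ :=
    ENNReal.add_ne_top.mpr ⟨Phi_ne_top hn hR he hRAD hm h0 hint t y,
      ENNReal.mul_ne_top (kap_ne_top n) ENNReal.ofReal_ne_top⟩
  have h1 := ENNReal.toReal_mono hne (Phi_ge_in hn hR he hRAD hm h0 hint hy)
  rw [ENNReal.toReal_mul, ENNReal.toReal_ofReal (tail_nonneg h0 le_rfl),
    ENNReal.toReal_add (Phi_ne_top hn hR he hRAD hm h0 hint t y)
      (ENNReal.mul_ne_top (kap_ne_top n) ENNReal.ofReal_ne_top), ENNReal.toReal_mul,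
    ENNReal.toReal_ofReal (tail_nonneg h0 (by linarith))] at h1
  nlinarith [h1]

theorem lint_eq (hH : ∀ u : ℝ, 0 < u → Integrable (fun y => h (dist (u • e) y)) τ) (t : ℝ) :
    ∫⁻ u in Ioo 0 t, ENNReal.ofReal (u ^ (n - 1) * ∫ y, h (dist (u • e) y) ∂τ) =
      ∫⁻ u in Ioo 0 t, ENNReal.ofReal (u ^ (n - 1)) *
        ∫⁻ y, ENNReal.ofReal (h (dist (u • e) y)) ∂τ := by
  apply setLIntegral_congr_fun measurableSet_Ioo
  intro u hu
  simp only
  rw [ENNReal.ofReal_mul (pow_nonneg hu.1.le _), ofReal_integral_eq_lintegral_ofReal (hH u hu.1)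
    (Eventually.of_forall fun y => h0 _ dist_nonneg)]

theorem F_meas : StronglyMeasurable (fun u : ℝ => u ^ (n - 1) * ∫ y, h (dist (u • e) y) ∂τ) :=
  (by fun_prop : Measurable fun u : ℝ => u ^ (n - 1)).stronglyMeasurable.mul
    ((meas2 hm e).stronglyMeasurable.integral_prod_right')

theorem F_int (hH : ∀ u : ℝ, 0 < u → Integrable (fun y => h (dist (u • e) y)) τ) {t : ℝ}
    (ht : 0 < t) : IntegrableOn (fun u : ℝ => u ^ (n - 1) * ∫ y, h (dist (u • e) y) ∂τ)
      (Ioc 0 t) := by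
  rw [integrableOn_Ioc_iff_integrableOn_Ioo]
  refine ⟨(F_meas hn hR he hRAD hm h0 hint).aestronglyMeasurable, ?_⟩
  rw [hasFiniteIntegral_iff_ofReal]
  · rw [lint_eq hn hR he hRAD hm h0 hint hH]
    exact lt_of_le_of_lt (ballE_le hn hR he hRAD hm h0 hint ht)
      (ENNReal.mul_lt_top ENNReal.ofReal_lt_top (measure_lt_top _ _))
  · rw [EventuallyLE, ae_restrict_iff' measurableSet_Ioo]
    refine Eventually.of_forall fun u hu => ?_
    exact mul_nonneg (pow_nonneg hu.1.le _) (integral_nonneg fun y => h0 _ dist_nonneg)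

theorem F_eq (hH : ∀ u : ℝ, 0 < u → Integrable (fun y => h (dist (u • e) y)) τ) {t : ℝ}
    (ht : 0 < t) : ∫ u in (0 : ℝ)..t, u ^ (n - 1) * ∫ y, h (dist (u • e) y) ∂τ =
      ∫ y, psi n h t y ∂τ := by
  rw [intervalIntegral.integral_of_le ht.le, integral_Ioc_eq_integral_Ioo,
    integral_eq_lintegral_of_nonneg_ae _
      (F_meas hn hR he hRAD hm h0 hint).aestronglyMeasurable]
  · rw [lint_eq hn hR he hRAD hm h0 hint hH]
    have h1 := congrArg ENNReal.toReal (ballE hn hR he hRAD hm h0 hint ht)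
    rw [ENNReal.toReal_mul] at h1
    unfold psi
    rw [integral_div, integral_toReal (Phi_measurable hm t).aemeasurable
      (Eventually.of_forall fun y => lt_top_iff_ne_top.mpr
        (Phi_ne_top hn hR he hRAD hm h0 hint t y)), ← h1, mul_comm,
      mul_div_assoc, div_self (kapr_pos hn).ne', mul_one]
  · rw [EventuallyLE, ae_restrict_iff' measurableSet_Ioo]
    refine Eventually.of_forall fun u hu => ?_
    exact mul_nonneg (pow_nonneg hu.1.le _) (integral_nonneg fun y => h0 _ dist_nonneg)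

theorem F_bound (hH : ∀ u : ℝ, 0 < u → Integrable (fun y => h (dist (u • e) y)) τ) {t : ℝ}
    (ht : 0 < t) : 0 ≤ ∫ u in (0 : ℝ)..t, u ^ (n - 1) * ∫ y, h (dist (u • e) y) ∂τ ∧
      ∫ u in (0 : ℝ)..t, u ^ (n - 1) * ∫ y, h (dist (u • e) y) ∂τ ≤
        (∫ s in Ioi (0 : ℝ), s ^ (n - 1) * h s) * τ.real univ := by
  rw [F_eq hn hR he hRAD hm h0 hint hH ht]
  refine ⟨integral_nonneg fun y => psi_nonneg n h t y, ?_⟩
  have h1 : ∫ y, psi n h t y ∂τ ≤ ∫ _y, (∫ s in Ioi (0 : ℝ), s ^ (n - 1) * h s) ∂τ := by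
    apply integral_mono_of_nonneg (Eventually.of_forall fun y => psi_nonneg n h t y)
      (integrable_const _)
    exact Eventually.of_forall fun y => psi_le hn hR he hRAD hm h0 hint t y
  rw [integral_const, smul_eq_mul, mul_comm] at h1
  exact h1

/-- There is a point where the potential is finite. -/
theorem exists_fin : ∃ u : ℝ, 0 < u ∧ u < 1 ∧
    ∫⁻ y, ENNReal.ofReal (h (dist (u • e) y)) ∂τ < ∞ := by
  by_contra hcon
  push Not at hcon
  have h1 := ballE_le hn hR he hRAD hm h0 hint (τ := τ) one_pos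
  have h2 : ∫⁻ u in Ioo (0 : ℝ) 1, ENNReal.ofReal (u ^ (n - 1)) *
      ∫⁻ y, ENNReal.ofReal (h (dist (u • e) y)) ∂τ = ∫⁻ _u in Ioo (0 : ℝ) 1, (∞ : ℝ≥0∞) := by
    apply setLIntegral_congr_fun measurableSet_Ioo
    intro u hu
    simp only
    rw [top_le_iff.mp (hcon u hu.1 hu.2), ENNReal.mul_top]
    exact (ENNReal.ofReal_pos.mpr (pow_pos hu.1 _)).ne'
  rw [h2, setLIntegral_const, Real.volume_Ioo] at h1
  have h3 : (∞ : ℝ≥0∞) * ENNReal.ofReal (1 - 0) = ∞ := by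
    rw [sub_zero, ENNReal.ofReal_one, mul_one]
  rw [h3] at h1
  exact absurd h1 (not_le.mpr (ENNReal.mul_lt_top ENNReal.ofReal_lt_top (measure_lt_top _ _)))

end

end Pool.Agent.Helper85.OB
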