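import Pool.Agent.Helper85.OB.CHNb

/-! # OB-CHN, part c: the regularised potentials and finiteness -/

open MeasureTheory Set Metric Filter
open scoped ENNReal Topology
open Pool.Agent.Results.MP_91ee6f_gt
open Pool.Agent.Helper70.MM (om om_zero om_one om_succ_succ om_rel om_pos om_hasDerivAt om_le
  om_measurable om_continuousOn)

set_option linter.unusedSectionVars false

namespace Pool.Agent.Helper85.OB

open Pool.Agent.Helper70.OB

theorem eps_le_sqrt {ε : ℝ} (hε : 0 < ε) (s : ℝ) : ε ≤ Real.sqrt (s ^ 2 + ε ^ 2) :=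
  (Real.le_sqrt' hε).mpr (by nlinarith [sq_nonneg s])

theorem s_le_sqrt {s : ℝ} (hs : 0 < s) (ε : ℝ) : s ≤ Real.sqrt (s ^ 2 + ε ^ 2) :=
  (Real.le_sqrt' hs).mpr (by nlinarith [sq_nonneg ε])

theorem reg_meas (j : ℕ) (ε : ℝ) : Measurable (fun s : ℝ => om j (Real.sqrt (s ^ 2 + ε ^ 2))) :=
  (om_measurable j).comp (by fun_prop)

theorem reg_nn (j : ℕ) (ε s : ℝ) : 0 ≤ om j (Real.sqrt (s ^ 2 + ε ^ 2)) :=
  om_nn j (Real.sqrt_nonneg _)

theorem reg_tendsto (j : ℕ) {s : ℝ} (hs : 0 < s) :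
    Tendsto (fun ε : ℝ => om j (Real.sqrt (s ^ 2 + ε ^ 2))) (𝓝[>] 0) (𝓝 (om j s)) := by
  have h1 : Tendsto (fun ε : ℝ => Real.sqrt (s ^ 2 + ε ^ 2)) (𝓝[>] 0) (𝓝 s) := by
    have h2 : Continuous (fun ε : ℝ => Real.sqrt (s ^ 2 + ε ^ 2)) := by fun_prop
    have h3 := h2.tendsto 0
    simp only [ne_eq, OfNat.ofNat_ne_zero, not_false_eq_true, zero_pow, add_zero] at h3
    rw [Real.sqrt_sq hs.le] at h3
    exact h3.mono_left nhdsWithin_le_nhds
  exact ((om_hasDerivAt j hs).continuousAt.tendsto).comp h1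

theorem reg_integrable {n : ℕ} {τ : Measure (En n)} [IsFiniteMeasure τ] (e : En n) (j : ℕ)
    {ε : ℝ} (hε : 0 < ε) (u : ℝ) :
    Integrable (fun y => om j (Real.sqrt (dist (u • e) y ^ 2 + ε ^ 2))) τ := by
  have hm : Measurable (fun y : En n => om j (Real.sqrt (dist (u • e) y ^ 2 + ε ^ 2))) :=
    (reg_meas j ε).comp (measurable_const.dist measurable_id)
  refine Integrable.of_bound hm.aestronglyMeasurable (om j ε) (Eventually.of_forall fun y => ?_)
  rw [Real.norm_eq_abs, abs_of_nonneg (reg_nn j ε _)]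
  exact om_le j hε (eps_le_sqrt hε _)

/-- The regularised flux. -/
noncomputable def PE {n : ℕ} (τ : Measure (En n)) (e : En n) (j : ℕ) (ε t : ℝ) : ℝ :=
  ∫ u in (0 : ℝ)..t, u ^ (n - 1) * (gr τ e ε j u -
        ((n : ℝ) - 1 - 2 * j) * gr τ e ε (j + 1) u - ε ^ 2 * gr τ e ε (j + 2) u)

section
variable {n k : ℕ} (hk : 2 ≤ k) (hnk : n + 1 = 2 * k) {τ : Measure (En n)}
  [hτ : IsFiniteMeasure τ] (hR : Rot τ) {e : En n} (he : ‖e‖ = 1) (hOMI : OMI) (hMASS : MASS)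
  (hREG : REG) (hRAD : RADI)

include hk hnk hOMI in
theorem reg_hint {j : ℕ} (hj : j < k) (ε : ℝ) :
    IntegrableOn (fun s : ℝ => s ^ (n - 1) * om j (Real.sqrt (s ^ 2 + ε ^ 2))) (Ioi 0) ∧
    ∫ s in Ioi (0 : ℝ), s ^ (n - 1) * om j (Real.sqrt (s ^ 2 + ε ^ 2)) ≤ AA n j := by
  have h1 := (hOMI n k hk hnk).1 j hj
  have hle : ∀ s ∈ Ioi (0 : ℝ), s ^ (n - 1) * om j (Real.sqrt (s ^ 2 + ε ^ 2)) ≤
      s ^ (n - 1) * om j s := fun s hs =>
    mul_le_mul_of_nonneg_left (om_le j hs (s_le_sqrt hs ε)) (pow_nonneg (le_of_lt hs) _)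
  have hint : IntegrableOn (fun s : ℝ => s ^ (n - 1) * om j (Real.sqrt (s ^ 2 + ε ^ 2)))
      (Ioi 0) := by
    refine Integrable.mono' h1 ?_ ?_
    · exact (((by fun_prop : Measurable fun s : ℝ => s ^ (n - 1))).mul
        (reg_meas j ε)).aestronglyMeasurable
    · rw [ae_restrict_iff' measurableSet_Ioi]
      refine Eventually.of_forall fun s hs => ?_
      rw [Real.norm_eq_abs, abs_of_nonneg (mul_nonneg (pow_nonneg (le_of_lt hs) _) (reg_nn j ε s))]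
      exact hle s hs
  exact ⟨hint, setIntegral_mono_on hint h1 measurableSet_Ioi hle⟩

include hk hnk hR he hREG in
theorem gr_cont {ε : ℝ} (hε : 0 < ε) (j : ℕ) : Continuous (gr τ e ε j) :=
  (hREG n (by omega) τ hτ hR e he ε hε j).1

include hk hnk hR he hREG in
theorem PE_cont {ε : ℝ} (hε : 0 < ε) (j : ℕ) : Continuous (PE τ e j ε) := by
  have h0 := gr_cont hk hnk hR he hREG hε j
  have h1 := gr_cont hk hnk hR he hREG hε (j + 1)
  have h2 := gr_cont hk hnk hR he hREG hε (j + 2)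
  have hc : Continuous (fun u : ℝ => u ^ (n - 1) * (gr τ e ε j u -
        ((n : ℝ) - 1 - 2 * j) * gr τ e ε (j + 1) u - ε ^ 2 * gr τ e ε (j + 2) u)) := by
    fun_prop
  exact intervalIntegral.continuous_primitive (fun a b => hc.intervalIntegrable a b) 0

include hk hnk hR he hREG in
theorem gr_ftc {ε : ℝ} (hε : 0 < ε) (j : ℕ) {r₁ r₂ : ℝ} (h1 : 0 < r₁) (h2 : 0 < r₂) :
    gr τ e ε j r₂ - gr τ e ε j r₁ = ∫ t in r₁..r₂, PE τ e j ε t / t ^ (n - 1) := by
  have hpos : ∀ t ∈ uIcc r₁ r₂, 0 < t := fun t ht => lt_of_lt_of_le (lt_min h1 h2) ht.1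
  rw [intervalIntegral.integral_eq_sub_of_hasDerivAt (f := gr τ e ε j)]
  · intro t ht
    exact (hREG n (by omega) τ hτ hR e he ε hε j).2 t (hpos t ht)
  · apply ContinuousOn.intervalIntegrable
    apply ContinuousOn.div (PE_cont hk hnk hR he hREG hε j).continuousOn (by fun_prop)
    intro t ht
    exact pow_ne_zero _ (hpos t ht).ne'

include hk hnk hR he hREG in
theorem PE_split {ε : ℝ} (hε : 0 < ε) (j : ℕ) (t : ℝ) : PE τ e j ε t =
    (∫ u in (0 : ℝ)..t, u ^ (n - 1) * ∫ y, om j (Real.sqrt (dist (u • e) y ^ 2 + ε ^ 2)) ∂τ) -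
    ((n : ℝ) - 1 - 2 * j) * (∫ u in (0 : ℝ)..t, u ^ (n - 1) *
      ∫ y, om (j + 1) (Real.sqrt (dist (u • e) y ^ 2 + ε ^ 2)) ∂τ) -
    (∫ u in (0 : ℝ)..t, u ^ (n - 1) *
      ∫ y, ε ^ 2 * om (j + 2) (Real.sqrt (dist (u • e) y ^ 2 + ε ^ 2)) ∂τ) := by
  have h0 := gr_cont hk hnk hR he hREG hε j
  have h1 := gr_cont hk hnk hR he hREG hε (j + 1)
  have h2 := gr_cont hk hnk hR he hREG hε (j + 2)
  have e3 : (fun u : ℝ => u ^ (n - 1) *
      ∫ y, ε ^ 2 * om (j + 2) (Real.sqrt (dist (u • e) y ^ 2 + ε ^ 2)) ∂τ) =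
      fun u => u ^ (n - 1) * (ε ^ 2 * gr τ e ε (j + 2) u) := by
    funext u
    rw [integral_const_mul]
    rfl
  rw [e3]
  unfold PE
  have c0 : IntervalIntegrable (fun u : ℝ => u ^ (n - 1) * gr τ e ε j u) volume 0 t :=
    (by fun_prop : Continuous fun u : ℝ => u ^ (n - 1) * gr τ e ε j u).intervalIntegrable _ _
  have c1 : IntervalIntegrable (fun u : ℝ => ((n : ℝ) - 1 - 2 * j) *
      (u ^ (n - 1) * gr τ e ε (j + 1) u)) volume 0 t :=
    (by fun_prop : Continuous fun u : ℝ => ((n : ℝ) - 1 - 2 * j) *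
      (u ^ (n - 1) * gr τ e ε (j + 1) u)).intervalIntegrable _ _
  have c2 : IntervalIntegrable (fun u : ℝ => u ^ (n - 1) * (ε ^ 2 * gr τ e ε (j + 2) u))
      volume 0 t :=
    (by fun_prop : Continuous fun u : ℝ =>
      u ^ (n - 1) * (ε ^ 2 * gr τ e ε (j + 2) u)).intervalIntegrable _ _
  rw [← intervalIntegral.integral_const_mul]
  change _ = (∫ u in (0 : ℝ)..t, u ^ (n - 1) * gr τ e ε j u) -
    (∫ u in (0 : ℝ)..t, ((n : ℝ) - 1 - 2 * j) * (u ^ (n - 1) * gr τ e ε (j + 1) u)) - _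
  rw [← intervalIntegral.integral_sub c0 c1, ← intervalIntegral.integral_sub (c0.sub c1) c2]
  apply intervalIntegral.integral_congr
  intro u _
  simp only
  ring

include hk hnk in
theorem coef {j : ℕ} (hj : j < k) :
    0 ≤ (n : ℝ) - 1 - 2 * j ∧ (¬ j + 1 < k → (n : ℝ) - 1 - 2 * j = 0) := by
  have h1 : (n : ℝ) = 2 * k - 1 := by
    have : ((n + 1 : ℕ) : ℝ) = ((2 * k : ℕ) : ℝ) := by rw [hnk]
    push_cast at this
    linarith
  have h2 : (j : ℝ) + 1 ≤ k := by exact_mod_cast hj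
  refine ⟨by linarith, fun h => ?_⟩
  have h3 : j + 1 = k := by omega
  have h4 : (j : ℝ) + 1 = k := by exact_mod_cast h3
  linarith

include hk hnk hR he hOMI hMASS hREG hRAD

theorem I1_bound {j : ℕ} (hj : j < k) {ε : ℝ} (hε : 0 < ε) {t : ℝ} (ht : 0 < t) :
    0 ≤ (∫ u in (0 : ℝ)..t, u ^ (n - 1) *
      ∫ y, om j (Real.sqrt (dist (u • e) y ^ 2 + ε ^ 2)) ∂τ) ∧
    (∫ u in (0 : ℝ)..t, u ^ (n - 1) *
      ∫ y, om j (Real.sqrt (dist (u • e) y ^ 2 + ε ^ 2)) ∂τ) ≤ AA n j * τ.real univ := by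
  have h1 := reg_hint hk hnk hOMI hj ε
  have h2 := F_bound (n := n) (by omega) hR he hRAD (reg_meas j ε) (fun s _ => reg_nn j ε s) h1.1
    (fun u _ => reg_integrable e j hε u) ht
  exact ⟨h2.1, h2.2.trans (mul_le_mul_of_nonneg_right h1.2 measureReal_nonneg)⟩

theorem I3_bound {j : ℕ} (hj : j < k) {ε : ℝ} (hε : 0 < ε) {t : ℝ} (ht : 0 < t) :
    0 ≤ (∫ u in (0 : ℝ)..t, u ^ (n - 1) *
      ∫ y, ε ^ 2 * om (j + 2) (Real.sqrt (dist (u • e) y ^ 2 + ε ^ 2)) ∂τ) ∧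
    (∫ u in (0 : ℝ)..t, u ^ (n - 1) *
      ∫ y, ε ^ 2 * om (j + 2) (Real.sqrt (dist (u • e) y ^ 2 + ε ^ 2)) ∂τ) ≤
      AA n j * τ.real univ := by
  have h1 := (hMASS n k hk hnk j hj).1 ε hε
  have h2 := F_bound (n := n) (h := fun s => ε ^ 2 * om (j + 2) (Real.sqrt (s ^ 2 + ε ^ 2)))
    (by omega) hR he hRAD ((reg_meas (j + 2) ε).const_mul _)
    (fun s _ => mul_nonneg (sq_nonneg ε) (reg_nn (j + 2) ε s)) h1.1
    (fun u _ => (reg_integrable e (j + 2) hε u).const_mul _) ht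
  exact ⟨h2.1, h2.2.trans (mul_le_mul_of_nonneg_right h1.2 measureReal_nonneg)⟩

theorem PE_bound {j : ℕ} (hj : j < k) : ∃ C : ℝ, 0 ≤ C ∧ ∀ ε : ℝ, 0 < ε → ∀ t : ℝ, 0 < t →
    |PE τ e j ε t| ≤ C := by
  have hAj : 0 ≤ AA n j := by
    unfold AA
    exact tail_nonneg (fun s hs => om_nn j hs) le_rfl
  have hAj1 : 0 ≤ AA n (j + 1) := by
    unfold AA
    exact tail_nonneg (fun s hs => om_nn (j + 1) hs) le_rfl
  obtain ⟨ha, ha2⟩ := coef hk hnk hj
  have hT : 0 ≤ τ.real univ := measureReal_nonneg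
  refine ⟨AA n j * τ.real univ + ((n : ℝ) - 1 - 2 * j) * (AA n (j + 1) * τ.real univ) +
    AA n j * τ.real univ, by positivity, ?_⟩
  intro ε hε t ht
  rw [PE_split hk hnk hR he hREG hε j t]
  have b1 := I1_bound hk hnk hR he hOMI hMASS hREG hRAD hj hε ht
  have b3 := I3_bound hk hnk hR he hOMI hMASS hREG hRAD hj hε ht
  have b2 : 0 ≤ ((n : ℝ) - 1 - 2 * j) * (∫ u in (0 : ℝ)..t, u ^ (n - 1) *
      ∫ y, om (j + 1) (Real.sqrt (dist (u • e) y ^ 2 + ε ^ 2)) ∂τ) ∧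
      ((n : ℝ) - 1 - 2 * j) * (∫ u in (0 : ℝ)..t, u ^ (n - 1) *
      ∫ y, om (j + 1) (Real.sqrt (dist (u • e) y ^ 2 + ε ^ 2)) ∂τ) ≤
      ((n : ℝ) - 1 - 2 * j) * (AA n (j + 1) * τ.real univ) := by
    by_cases hj1 : j + 1 < k
    · have b := I1_bound hk hnk hR he hOMI hMASS hREG hRAD hj1 hε ht
      exact ⟨mul_nonneg ha b.1, mul_le_mul_of_nonneg_left b.2 ha⟩
    · rw [ha2 hj1]; simp
  rw [abs_le]
  constructor
  · linarith [b1.1, b1.2, b2.1, b2.2, b3.1, b3.2, mul_nonneg hAj hT]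
  · linarith [b1.1, b1.2, b2.1, b2.2, b3.1, b3.2, mul_nonneg hAj hT]

theorem gr_bound {j : ℕ} (hj : j < k) {r : ℝ} (hr : 0 < r) : ∃ K : ℝ, ∀ ε : ℝ, 0 < ε →
    gr τ e ε j r ≤ K := by
  obtain ⟨C, hC0, hC⟩ := PE_bound hk hnk hR he hOMI hMASS hREG hRAD hj
  obtain ⟨u, hu0, _, hu⟩ := exists_fin (n := n) (h := om j) (by omega) hR he hRAD
    (om_measurable j) (fun s hs => om_nn j hs) ((hOMI n k hk hnk).1 j hj)
  have hae := ae_dist_pos (n := n) (by omega) hR he hu0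
  have hmeas : Measurable (fun y : En n => om j (dist (u • e) y)) :=
    (om_measurable j).comp (measurable_const.dist measurable_id)
  have hi : Integrable (fun y => om j (dist (u • e) y)) τ := by
    refine ⟨hmeas.aestronglyMeasurable, ?_⟩
    rw [hasFiniteIntegral_iff_ofReal (Eventually.of_forall fun y => om_nn j dist_nonneg)]
    exact hu
  have hpos : ∀ t ∈ uIcc u r, min u r ≤ t := fun t ht => ht.1
  have hmin : 0 < min u r := lt_min hu0 hr
  refine ⟨(∫ y, om j (dist (u • e) y) ∂τ) + C / (min u r) ^ (n - 1) * |r - u|, ?_⟩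
  intro ε hε
  have h1 := gr_ftc hk hnk hR he hREG hε j hu0 hr
  have h2 : gr τ e ε j u ≤ ∫ y, om j (dist (u • e) y) ∂τ := by
    unfold gr
    apply integral_mono_ae (reg_integrable e j hε u) hi
    filter_upwards [hae] with y hy
    exact om_le j hy (s_le_sqrt hy ε)
  have h3 : ‖∫ t in u..r, PE τ e j ε t / t ^ (n - 1)‖ ≤ C / (min u r) ^ (n - 1) * |r - u| := by
    apply intervalIntegral.norm_integral_le_of_norm_le_const
    intro t ht
    have ht' := hpos t (uIoc_subset_uIcc ht)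
    have ht0 : 0 < t := lt_of_lt_of_le hmin ht'
    rw [norm_div, Real.norm_eq_abs, Real.norm_eq_abs, abs_of_pos (pow_pos ht0 _)]
    exact div_le_div₀ hC0 (hC ε hε t ht0) (pow_pos hmin _)
      (pow_le_pow_left₀ hmin.le ht' _)
  rw [Real.norm_eq_abs] at h3
  have h4 := (abs_le.mp h3).2
  linarith

theorem gj_integrable {j : ℕ} (hj : j < k) {r : ℝ} (hr : 0 < r) :
    Integrable (fun y => om j (dist (r • e) y)) τ := by
  obtain ⟨K, hK⟩ := gr_bound hk hnk hR he hOMI hMASS hREG hRAD hj hr (τ := τ) (e := e)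
  have hae := ae_dist_pos (n := n) (by omega) hR he hr
  have hmeas : Measurable (fun y : En n => om j (dist (r • e) y)) :=
    (om_measurable j).comp (measurable_const.dist measurable_id)
  refine ⟨hmeas.aestronglyMeasurable, ?_⟩
  rw [hasFiniteIntegral_iff_ofReal (Eventually.of_forall fun y => om_nn j dist_nonneg)]
  set εs : ℕ → ℝ := fun m => 1 / ((m : ℝ) + 1) with hεs
  have hεpos : ∀ m, 0 < εs m := fun m => by simp only [hεs]; positivity
  have hε0 : Tendsto εs atTop (𝓝[>] 0) := by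
    apply tendsto_nhdsWithin_iff.mpr
    exact ⟨tendsto_one_div_add_atTop_nhds_zero_nat, Eventually.of_forall fun m => hεpos m⟩
  have h1 : ∫⁻ y, ENNReal.ofReal (om j (dist (r • e) y)) ∂τ = ∫⁻ y, liminf (fun m =>
      ENNReal.ofReal (om j (Real.sqrt (dist (r • e) y ^ 2 + εs m ^ 2)))) atTop ∂τ := by
    apply lintegral_congr_ae
    filter_upwards [hae] with y hy
    symm
    apply Tendsto.liminf_eq
    exact (ENNReal.continuous_ofReal.tendsto _).comp ((reg_tendsto j hy).comp hε0)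
  rw [h1]
  refine lt_of_le_of_lt (lintegral_liminf_le fun m => ?_) ?_
  · exact ((reg_meas j (εs m)).comp (measurable_const.dist measurable_id)).ennreal_ofReal
  · refine lt_of_le_of_lt (b := ENNReal.ofReal K) ?_ ENNReal.ofReal_lt_top
    apply liminf_le_of_le (by isBoundedDefault)
    intro b hb
    obtain ⟨m, hm⟩ := hb.exists
    refine hm.trans ?_
    rw [← ofReal_integral_eq_lintegral_ofReal (reg_integrable e j (hεpos m) r)
      (Eventually.of_forall fun y => reg_nn j _ _)]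
    exact ENNReal.ofReal_le_ofReal (hK (εs m) (hεpos m))

end

end Pool.Agent.Helper85.OB
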