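import Pool.Agent.Helper70.OB.Goals

/-! # OB-CNTT: the last step of the count of zeros -/

open MeasureTheory Set Metric Filter
open scoped ENNReal Topology
open Pool.Agent.Results.MP_91ee6f_gt
open Pool.Agent.Helper70.MM (om om_zero om_one om_rel om_pos om_hasDerivAt om_le om_measurable
  om_continuousOn)

namespace Pool.Agent.Helper85.OB

open Pool.Agent.Helper70.OB

variable {k : ℕ} {V P : ℕ → ℝ → ℝ} {m : ℝ → ℝ}

/-- Rolle for `V_{k-1}/K`: a zero of `W_{k-1}`. -/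
theorem zeroW (hB : BAS) (hC : Chain k V P m) {p q : ℝ} (hp : 0 < p) (hpq : p < q)
    (hVp : V (k - 1) p = 0) (hVq : V (k - 1) q = 0)
    (hd : ∀ r ∈ Ioo p q, HasDerivAt (fun r => V (k - 1) r / om (k - 1) r)
      (WW k V P (k - 1) r / (r ^ (2 * k - 2) * om (k - 1) r ^ 2)) r) :
    ∃ c ∈ Ioo p q, WW k V P (k - 1) c = 0 := by
  have hk : k - 1 < k := by have := hC.two_le; omega
  have hsub : Icc p q ⊆ Ioi 0 := fun x hx => lt_of_lt_of_le hp hx.1
  have hc : ContinuousOn (fun r => V (k - 1) r / om (k - 1) r) (Icc p q) :=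
    (((hB k V P m hC).1 (k - 1) hk).mono hsub).div ((om_continuousOn (k - 1)).mono hsub)
      (fun x hx => (om_pos (k - 1) (hsub hx)).ne')
  obtain ⟨c, hc1, hc2⟩ := exists_hasDerivAt_eq_zero hpq hc (by simp [hVp, hVq]) hd
  refine ⟨c, hc1, ?_⟩
  have hc0 : 0 < c := lt_trans hp hc1.1
  have hden : c ^ (2 * k - 2) * om (k - 1) c ^ 2 ≠ 0 :=
    mul_ne_zero (pow_ne_zero _ hc0.ne') (pow_ne_zero _ (om_pos (k - 1) hc0).ne')
  exact (div_eq_zero_iff.mp hc2).resolve_right hden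

/-- Three zeros of `V_{k-1}` with no mass between them are impossible. -/
theorem lem3 (hB : BAS) (hW : WDER) (hC : Chain k V P m) {b : ℝ} (hb : 0 < b) {F : Finset ℝ}
    (hF : ∀ x y : ℝ, b < x → x ≤ y → (∀ r ∈ F, ¬ (x ≤ r ∧ r < y)) → m x = m y)
    {p₁ p₂ p₃ : ℝ} (h0 : b ≤ p₁) (h12 : p₁ < p₂) (h23 : p₂ < p₃)
    (e1 : V (k - 1) p₁ = 0) (e2 : V (k - 1) p₂ = 0) (e3 : V (k - 1) p₃ = 0)
    (hn : ∀ r ∈ F, ¬ (p₁ ≤ r ∧ r < p₃)) : False := by
  have hp1 : 0 < p₁ := lt_of_lt_of_le hb h0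
  have hm : ∀ x ∈ Ioo p₁ p₃, ∀ y ∈ Ioo p₁ p₃, m x = m y := by
    have key : ∀ x ∈ Ioo p₁ p₃, ∀ y ∈ Ioo p₁ p₃, x ≤ y → m x = m y := by
      intro x hx y hy hxy
      refine hF x y (lt_of_le_of_lt h0 hx.1) hxy ?_
      intro r hr hr2
      exact hn r hr ⟨hx.1.le.trans hr2.1, lt_trans hr2.2 hy.2⟩
    intro x hx y hy
    rcases le_total x y with h | h
    · exact key x hx y hy h
    · exact (key y hy x hx h).symm
  have hd := (hW k V P m hC).2.1 p₁ p₃ hp1.le hm
  obtain ⟨c, hc, hc0⟩ := zeroW hB hC hp1 h12 e1 e2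
    (fun r hr => (hd r ⟨hr.1, lt_trans hr.2 h23⟩).1)
  obtain ⟨d, hdd, hd0⟩ := zeroW hB hC (lt_trans hp1 h12) h23 e2 e3
    (fun r hr => (hd r ⟨lt_trans h12 hr.1, hr.2⟩).1)
  have hcd : c < d := lt_trans hc.2 hdd.1
  have hsub : ∀ r ∈ Icc c d, r ∈ Ioo p₁ p₃ := fun r hr =>
    ⟨lt_of_lt_of_le hc.1 hr.1, lt_of_le_of_lt hr.2 hdd.2⟩
  obtain ⟨e, he, he0⟩ := exists_hasDerivAt_eq_zero (f := WW k V P (k - 1))
    (f' := fun r => r ^ (2 * k - 2) * om (k - 1) r) hcd
    (fun r hr => (hd r (hsub r hr)).2.continuousAt.continuousWithinAt) (by rw [hc0, hd0])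
    (fun r hr => (hd r (hsub r (Ioo_subset_Icc_self hr))).2)
  have he1 : 0 < e := lt_trans hp1 (hsub e (Ioo_subset_Icc_self he)).1
  have : 0 < e ^ (2 * k - 2) * om (k - 1) e := mul_pos (pow_pos he1 _) (om_pos _ he1)
  exact absurd he0 this.ne'

/-- Two zeros of `V_{k-1}` with no mass beyond the first one are impossible. -/
theorem lem2 (hB : BAS) (hW : WDER) (hC : Chain k V P m) {b : ℝ} (hb : 0 < b) {F : Finset ℝ}
    (hF : ∀ x y : ℝ, b < x → x ≤ y → (∀ r ∈ F, ¬ (x ≤ r ∧ r < y)) → m x = m y)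
    {p₁ p₂ : ℝ} (h0 : b ≤ p₁) (h12 : p₁ < p₂)
    (e1 : V (k - 1) p₁ = 0) (e2 : V (k - 1) p₂ = 0)
    (hn : ∀ r ∈ F, r < p₁) : False := by
  have hp1 : 0 < p₁ := lt_of_lt_of_le hb h0
  have hm : ∀ x, p₁ < x → ∀ y, p₁ < y → m x = m y := by
    have key : ∀ x, p₁ < x → ∀ y, p₁ < y → x ≤ y → m x = m y := by
      intro x hx y hy hxy
      refine hF x y (lt_of_le_of_lt h0 hx) hxy ?_
      intro r hr hr2
      exact absurd (hn r hr) (not_lt.mpr (hx.le.trans hr2.1))
    intro x hx y hy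
    rcases le_total x y with h | h
    · exact key x hx y hy h
    · exact (key y hy x hx h).symm
  have hd : ∀ r, p₁ < r → HasDerivAt (fun r => V (k - 1) r / om (k - 1) r)
      (WW k V P (k - 1) r / (r ^ (2 * k - 2) * om (k - 1) r ^ 2)) r ∧
      HasDerivAt (WW k V P (k - 1)) (r ^ (2 * k - 2) * om (k - 1) r) r := fun r hr =>
    (hW k V P m hC).2.1 p₁ (r + 1) hp1.le (fun x hx y hy => hm x hx.1 y hy.1) r
      ⟨hr, by linarith⟩
  obtain ⟨c, hc, hc0⟩ := zeroW hB hC hp1 h12 e1 e2 (fun r hr => (hd r hr.1).1)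
  have hmono : StrictMonoOn (WW k V P (k - 1)) (Ici c) := by
    apply strictMonoOn_of_deriv_pos (convex_Ici c)
    · intro r hr
      exact (hd r (lt_of_lt_of_le hc.1 hr)).2.continuousAt.continuousWithinAt
    · intro r hr
      rw [interior_Ici] at hr
      have hr1 : p₁ < r := lt_trans hc.1 hr
      rw [(hd r hr1).2.deriv]
      exact mul_pos (pow_pos (lt_trans hp1 hr1) _) (om_pos _ (lt_trans hp1 hr1))
  have hk : k - 1 < k := by have := hC.two_le; omega
  have ht := (hW k V P m hC).2.2 (k - 1) hk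
  have h1 : 0 < WW k V P (k - 1) (c + 1) := by
    rw [← hc0]
    exact hmono (mem_Ici.mpr le_rfl) (mem_Ici.mpr (by linarith)) (by linarith)
  have h2 : WW k V P (k - 1) (c + 1) ≤ 0 := by
    apply ge_of_tendsto ht
    filter_upwards [eventually_ge_atTop (c + 1)] with x hx
    exact hmono.monotoneOn (mem_Ici.mpr (by linarith)) (mem_Ici.mpr (by linarith)) hx
  linarith

open Classical in
/-- The number of elements of `F` below `u`. -/
noncomputable def cn (F : Finset ℝ) (u : ℝ) : ℕ := (F.filter (fun r => r < u)).card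

theorem cn_le (F : Finset ℝ) (u : ℝ) : cn F u ≤ F.card := by
  unfold cn
  exact Finset.card_filter_le _ _

theorem cn_mono (F : Finset ℝ) {u v : ℝ} (h : u ≤ v) : cn F u ≤ cn F v := by
  unfold cn
  apply Finset.card_le_card
  intro r hr
  rw [Finset.mem_filter] at hr ⊢
  exact ⟨hr.1, lt_of_lt_of_le hr.2 h⟩

theorem cn_eq (F : Finset ℝ) {u v : ℝ} (h : u ≤ v) (hc : cn F v ≤ cn F u) :
    ∀ r ∈ F, ¬ (u ≤ r ∧ r < v) := by
  classical
  intro r hr hr2
  have hsub : F.filter (fun r => r < u) ⊆ F.filter (fun r => r < v) := by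
    intro r hr
    rw [Finset.mem_filter] at hr ⊢
    exact ⟨hr.1, lt_of_lt_of_le hr.2 h⟩
  have he : F.filter (fun r => r < u) = F.filter (fun r => r < v) := by
    apply Finset.eq_of_subset_of_card_le hsub
    unfold cn at hc
    convert hc
  have h1 : r ∈ F.filter (fun r => r < v) := Finset.mem_filter.mpr ⟨hr, hr2.2⟩
  rw [← he, Finset.mem_filter] at h1
  exact absurd h1.2 (not_lt.mpr hr2.1)

theorem cn_all (F : Finset ℝ) {u : ℝ} (hc : F.card ≤ cn F u) : ∀ r ∈ F, r < u := by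
  classical
  intro r hr
  have he : F.filter (fun r => r < u) = F := by
    apply Finset.eq_of_subset_of_card_le (Finset.filter_subset _ _)
    unfold cn at hc
    convert hc
  rw [← he, Finset.mem_filter] at hr
  exact hr.2

theorem cntt (hB : BAS) (hW : WDER) : CNTT := by
  intro k V P m hC b hb hVb F hF q hq
  obtain ⟨x, hx, hx2⟩ := hq
  -- the q + 1 zeros
  set z : Fin (q + 1) → ℝ := Fin.cons b x with hz
  have hzm : StrictMono z := by
    intro i j hij
    rcases Fin.eq_zero_or_eq_succ j with rfl | ⟨j', rfl⟩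
    · exact absurd hij (Fin.not_lt_zero i)
    · rcases Fin.eq_zero_or_eq_succ i with rfl | ⟨i', rfl⟩
      · simp only [hz, Fin.cons_zero, Fin.cons_succ]
        exact (hx2 j').1
      · simp only [hz, Fin.cons_succ]
        exact hx (Fin.succ_lt_succ_iff.mp hij)
  have hzV : ∀ i, V (k - 1) (z i) = 0 := by
    intro i
    rcases Fin.eq_zero_or_eq_succ i with rfl | ⟨i', rfl⟩
    · simp only [hz, Fin.cons_zero]; exact hVb
    · simp only [hz, Fin.cons_succ]; exact (hx2 i').2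
  have hzb : ∀ i, b ≤ z i := by
    intro i
    have h0 : z 0 = b := by simp only [hz, Fin.cons_zero]
    rw [← h0]
    exact hzm.monotone (Fin.zero_le i)
  have hstep : ∀ j : ℕ, ∀ h : 2 * j < q + 1, j ≤ cn F (z ⟨2 * j, h⟩) := by
    intro j
    induction j with
    | zero => intro _; exact Nat.zero_le _
    | succ j ih =>
      intro h
      have h1 : 2 * j < q + 1 := by omega
      have h2 : 2 * j + 1 < q + 1 := by omega
      have ih' := ih h1
      by_contra hcon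
      rw [not_le] at hcon
      have hle : z ⟨2 * j, h1⟩ ≤ z ⟨2 * (j + 1), h⟩ :=
        hzm.monotone (by rw [Fin.le_def]; simp only; omega)
      have hc : cn F (z ⟨2 * (j + 1), h⟩) ≤ cn F (z ⟨2 * j, h1⟩) := by omega
      exact lem3 hB hW hC hb hF (hzb ⟨2 * j, h1⟩)
        (hzm (by rw [Fin.lt_def]; simp only; omega) : z ⟨2 * j, h1⟩ < z ⟨2 * j + 1, h2⟩)
        (hzm (by rw [Fin.lt_def]; simp only; omega) : z ⟨2 * j + 1, h2⟩ < z ⟨2 * (j + 1), h⟩)
        (hzV _) (hzV _) (hzV _) (cn_eq F hle hc)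
  rcases Nat.eq_zero_or_pos q with hq0 | hq0
  · omega
  · have h1 : q - 1 < q + 1 := by omega
    have h2 : q < q + 1 := by omega
    have hlt : cn F (z ⟨q - 1, h1⟩) < F.card := by
      by_contra hcon
      rw [not_lt] at hcon
      exact lem2 hB hW hC hb hF (hzb ⟨q - 1, h1⟩)
        (hzm (by rw [Fin.lt_def]; simp only; omega) : z ⟨q - 1, h1⟩ < z ⟨q, h2⟩)
        (hzV _) (hzV _) (cn_all F hcon)
    have h3 : 2 * ((q - 1) / 2) < q + 1 := by omega
    have h4 := hstep ((q - 1) / 2) h3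
    have h5 : cn F (z ⟨2 * ((q - 1) / 2), h3⟩) ≤ cn F (z ⟨q - 1, h1⟩) :=
      cn_mono F (hzm.monotone (by rw [Fin.le_def]; simp only; omega))
    omega

end Pool.Agent.Helper85.OB
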